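import Pool.Agent.helper14.AU.Spec

set_option autoImplicit false

namespace Pool.Agent.helper14.AU

open N68a2faeb N793a5b8e Pool.Agent.helper56.SGE Pool.Agent.helper56.SGE.QSys
  Pool.Agent.helper98.Tsei Pool.Agent.H54.PT

/-- the number `n` is the number of the variable at the position `i` -/
def E1_Occ (tok : ℕ → ℕ) (L n i : ℕ) : Prop :=
  tok i = 3 ∧ Seg tok (i + 1) (numToks n) ∧ i + 1 + (numToks n).length ≤ L

section

variable {tok : ℕ → ℕ} {L : ℕ} {u y : ℕ → ℝ}

lemma E1_tm (hA : AllSat u tok L) (hy : ∀ n i, E1_Occ tok L n i → y n = u (16 * i)) (t : Tm) :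
    ∀ i, Seg tok i (tmToks t) → i + (tmToks t).length ≤ L → t.val y = u (16 * i) := by
  induction t with
  | var n =>
    intro i h hL
    obtain ⟨h0, h1⟩ := seg_cons.1 h
    have hL' : i + ((numToks n).length + 1) ≤ L := by simpa [tmToks] using hL
    exact hy n i ⟨h0, h1, by omega⟩
  | num n =>
    intro i h hL
    obtain ⟨h0, h1⟩ := seg_cons.1 h
    have hL' : i + ((numToks n).length + 1) ≤ L := by simpa [tmToks] using hL
    have hi : i < L := by omega
    have hs := ls_of_leq (hA.loc i hi)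
    rw [hs.c4 h0, num_val hA n (i + 1) h1 (by omega)]
    rfl
  | add s t ihs iht =>
    intro i h hL
    obtain ⟨hi, h0, h1, _, h3, h4, h5⟩ := bin_seg h (tmBal s) hL
    have hs := ls_of_leq (hA.loc i hi)
    rw [hs.c5 h0, ← ihs _ h1 h4, ← iht _ h3 h5]
    rfl
  | sub s t ihs iht =>
    intro i h hL
    obtain ⟨hi, h0, h1, _, h3, h4, h5⟩ := bin_seg h (tmBal s) hL
    have hs := ls_of_leq (hA.loc i hi)
    rw [hs.c6 h0, ← ihs _ h1 h4, ← iht _ h3 h5]
    rfl
  | mul s t ihs iht =>
    intro i h hL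
    obtain ⟨hi, h0, h1, _, h3, h4, h5⟩ := bin_seg h (tmBal s) hL
    have hs := ls_of_leq (hA.loc i hi)
    rw [hs.c7 h0, ← ihs _ h1 h4, ← iht _ h3 h5]
    rfl

lemma E1_fm (hA : AllSat u tok L) (hy : ∀ n i, E1_Occ tok L n i → y n = u (16 * i)) (f : Fml) :
    ∀ i, Seg tok i (fmToks f) → i + (fmToks f).length ≤ L →
      (u (16 * i) = 0 → f.holds y) ∧ (u (16 * i + 1) = 0 → ¬ f.holds y) := by
  induction f with
  | lt s t =>
    intro i h hL
    obtain ⟨hi, h0, h1, _, h3, h4, h5⟩ := bin_seg h (tmBal s) hL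
    have hs := ls_of_leq (hA.loc i hi)
    obtain ⟨a, e, k1, k2⟩ := hs.c8 h0
    have e1 := E1_tm hA hy s _ h1 h4
    have e2 := E1_tm hA hy t _ h3 h5
    constructor
    · intro h6
      simp only [Fml.holds, e1, e2]
      rw [h6] at k1
      by_contra hcon
      push Not at hcon
      have := mul_nonpos_of_nonneg_of_nonpos (mul_self_nonneg a)
        (by linarith : u (16 * nxt tok L (i + 1)) - u (16 * (i + 1)) ≤ 0)
      linarith
    · intro h6
      simp only [Fml.holds, e1, e2]
      push Not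
      have := mul_self_nonneg e
      linarith
  | eq s t =>
    intro i h hL
    obtain ⟨hi, h0, h1, _, h3, h4, h5⟩ := bin_seg h (tmBal s) hL
    have hs := ls_of_leq (hA.loc i hi)
    obtain ⟨a, k1, k2⟩ := hs.c9 h0
    have e1 := E1_tm hA hy s _ h1 h4
    have e2 := E1_tm hA hy t _ h3 h5
    constructor
    · intro h6
      simp only [Fml.holds, e1, e2]
      linarith
    · intro h6
      simp only [Fml.holds, e1, e2]
      intro heq
      have e0 : u (16 * i) = 0 := by linarith
      rw [e0, zero_mul, h6] at k2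
      norm_num at k2
  | not f ih =>
    intro i h hL
    obtain ⟨h0, h1⟩ := seg_cons.1 h
    have hL' : i + ((fmToks f).length + 1) ≤ L := by simpa [fmToks] using hL
    have hi : i < L := by omega
    have hs := ls_of_leq (hA.loc i hi)
    obtain ⟨k1, k2⟩ := hs.c10 h0
    obtain ⟨h3, h4⟩ := ih (i + 1) h1 (by omega)
    constructor
    · intro h6
      simp only [Fml.holds]
      exact h4 (by rw [← k1]; exact h6)
    · intro h6
      simp only [Fml.holds, not_not]
      exact h3 (by rw [← k2]; exact h6)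
  | and f g ihf ihg =>
    intro i h hL
    obtain ⟨hi, h0, h1, _, h3, h4, h5⟩ := bin_seg h (fmBal f) hL
    have hs := ls_of_leq (hA.loc i hi)
    obtain ⟨k1, k2⟩ := hs.c11 h0
    obtain ⟨f1, f2⟩ := ihf _ h1 h4
    obtain ⟨g1, g2⟩ := ihg _ h3 h5
    constructor
    · intro h6
      simp only [Fml.holds]
      have := sumsq_zero (a := u (16 * (i + 1))) (b := u (16 * nxt tok L (i + 1)))
        (by rw [← k1, h6])
      exact ⟨f1 this.1, g1 this.2⟩
    · intro h6
      simp only [Fml.holds]
      rw [h6] at k2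
      rcases mul_eq_zero.1 k2.symm with h8 | h8
      · exact fun h9 => f2 h8 h9.1
      · exact fun h9 => g2 h8 h9.2
  | or f g ihf ihg =>
    intro i h hL
    obtain ⟨hi, h0, h1, _, h3, h4, h5⟩ := bin_seg h (fmBal f) hL
    have hs := ls_of_leq (hA.loc i hi)
    obtain ⟨k1, k2⟩ := hs.c12 h0
    obtain ⟨f1, f2⟩ := ihf _ h1 h4
    obtain ⟨g1, g2⟩ := ihg _ h3 h5
    constructor
    · intro h6
      simp only [Fml.holds]
      rw [h6] at k1
      rcases mul_eq_zero.1 k1.symm with h8 | h8
      · exact Or.inl (f1 h8)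
      · exact Or.inr (g1 h8)
    · intro h6
      simp only [Fml.holds]
      have := sumsq_zero (a := u (16 * (i + 1) + 1)) (b := u (16 * nxt tok L (i + 1) + 1))
        (by rw [← k2, h6])
      rintro (h9 | h9)
      · exact f2 this.1 h9
      · exact g2 this.2 h9

lemma E1_parse (hW : WF tok L) {i : ℕ} (hi : i < L) (h3 : tok i = 3) : ∃ n, E1_Occ tok L n i := by
  have hP := next_lt hW hi (by rw [h3]; simp [wt])
  obtain ⟨n, hn1, hn2⟩ := num_parse hW L (i + 1) hP (by omega)
    ((hW.loc i hi).t2 (by omega) (by omega))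
  exact ⟨n, h3, hn1, hn2⟩

lemma E1_numv {n i : ℕ} (h : E1_Occ tok L n i) : numv tok L (i + 1) = n :=
  numv_seg n (i + 1) h.2.1 h.2.2

lemma E1_seg3 {n i : ℕ} (h : E1_Occ tok L n i) : Seg tok i (3 :: numToks n) :=
  seg_cons.2 ⟨h.1, h.2.1⟩

lemma E1_nxt {n i : ℕ} (h : E1_Occ tok L n i) : nxt tok L i = i + (3 :: numToks n).length := by
  refine nxt_seg (E1_seg3 h) (bal_unary 3 (by simp [wt]) (numBal n)) ?_
  have := h.2.2
  rw [List.length_cons]; omega

lemma E1_same {n i j : ℕ} (hi : E1_Occ tok L n i) (hj : E1_Occ tok L n j) : Same tok L i j := by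
  have ni := E1_nxt hi
  have nj := E1_nxt hj
  refine ⟨hi.1, by omega, fun t ht => ?_⟩
  have ht' : t < (3 :: numToks n).length := by omega
  rw [E1_seg3 hi t ht', E1_seg3 hj t ht']

lemma E1_occ_of_same {n i j : ℕ} (hj : E1_Occ tok L n j) (hij : i < j) (h : Same tok L i j) :
    E1_Occ tok L n i := by
  obtain ⟨h1, h2, h3⟩ := h
  have nj := E1_nxt hj
  have hlen : (3 :: numToks n).length = (numToks n).length + 1 := List.length_cons
  refine ⟨h1, fun t ht => ?_, ?_⟩
  · have h4 := h3 (t + 1) (by omega)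
    have h5 := hj.2.1 t ht
    have e1 : i + (t + 1) = i + 1 + t := by ring
    have e2 : j + (t + 1) = j + 1 + t := by ring
    rw [e1, e2] at h4
    rw [h4, h5]
  · have := hj.2.2
    omega

lemma E1_even_numv {i : ℕ} (h : tok (i + 1) ≠ 2) : ∃ k, numv tok L (i + 1) = 2 * k := by
  rw [numv]
  split_ifs with h1 h2
  · exact ⟨_, rfl⟩
  · exact ⟨0, rfl⟩
  · exact ⟨0, rfl⟩

lemma E1_even_tok {k i : ℕ} (h : E1_Occ tok L (2 * k) i) : tok (i + 1) ≠ 2 := by
  have hs := h.2.1
  rcases Nat.eq_zero_or_pos k with h0 | h0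
  · rw [h0, Nat.mul_zero, numToks_zero] at hs
    have := (seg_cons.1 hs).1
    omega
  · rw [numToks_even k (by omega)] at hs
    have := (seg_cons.1 hs).1
    omega

end

theorem E1 : E1_stmt := by
  classical
  intro w
  unfold UETR
  simp only [decide_eq_true_eq]
  constructor
  · rintro ⟨f, hf, hX⟩
    rw [fmCode_eq] at hf
    have h1 : w.length = 4 * (fmToks f).length := by rw [← hf, length_flatMap_letter]
    have h2 : len w = (fmToks f).length := by unfold len; omega
    have h3 : Seg (tokw w) 0 (fmToks f) := by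
      intro i hi
      rw [Nat.zero_add, ← hf]
      exact tokw_flatMap _ (fmToks_lt f) i hi
    have h4 := wf_of_code f h3
    rw [← h2] at h4
    refine ⟨⟨by rw [h2]; exact h1, h4⟩, fun x => ?_⟩
    obtain ⟨y, hy1, hy2⟩ := hX (fun n =>
      if h : ∃ i, i < len w ∧ Rep (tokw w) (len w) i ∧ numv (tokw w) (len w) (i + 1) = n then
        x h.choose else 0)
    refine ⟨asg (tokw w) (len w) y, complete h4 f h3 h2.symm hy2, fun i hi hR => ?_⟩
    rw [asg_zero]
    have hd : (dat (tokw w) (len w) y i).1 = y (numv (tokw w) (len w) (i + 1)) := by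
      rw [dat]
      simp [hi, hR.1]
    obtain ⟨k, hk⟩ := E1_even_numv (tok := tokw w) (L := len w) hR.2.1
    rw [hd, hk, hy1 k]
    have hex : ∃ j, j < len w ∧ Rep (tokw w) (len w) j ∧
        numv (tokw w) (len w) (j + 1) = 2 * k := ⟨i, hi, hR, hk⟩
    rw [dif_pos hex]
    obtain ⟨g1, g2, g3⟩ := hex.choose_spec
    congr 1
    set j := hex.choose with hj
    obtain ⟨n, hn⟩ := E1_parse h4 hi hR.1
    obtain ⟨m, hm⟩ := E1_parse h4 g1 g2.1
    have hnm : n = m := by rw [← E1_numv hn, ← E1_numv hm, g3, hk]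
    subst hnm
    rcases lt_trichotomy j i with h | h | h
    · exact absurd (E1_same hm hn) (hR.2.2 j h)
    · exact h
    · exact absurd (E1_same hn hm) (g2.2.2 i h)
  · rintro ⟨⟨h1, h2⟩, hx⟩
    obtain ⟨u0, hu0, -⟩ := hx (fun _ => 0)
    obtain ⟨f, h3, h4, -⟩ := sound h2 hu0
    refine ⟨f, ?_, fun X => ?_⟩
    · rw [fmCode_eq, word_eq (len w) w h1]
      congr 1
      apply List.ext_getElem
      · simp [h4]
      · intro i hi hi'
        have := h3 i hi
        rw [Nat.zero_add] at this
        rw [← this]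
        simp
    · obtain ⟨u, hu, hux⟩ := hx (fun i => X (numv (tokw w) (len w) (i + 1)))
      have hy : ∀ n i, E1_Occ (tokw w) (len w) n i →
          (if ∃ i, E1_Occ (tokw w) (len w) n i then rho u (tokw w) (len w) n else X n) =
            u (16 * i) := by
        intro n i h
        rw [if_pos ⟨i, h⟩]
        exact rho_eq hu h.1 h.2.1 h.2.2
      refine ⟨fun n => if ∃ i, E1_Occ (tokw w) (len w) n i then rho u (tokw w) (len w) n else X n,
        fun k => ?_, (E1_fm hu hy f 0 h3 (by omega)).1 hu.root⟩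
      by_cases hex : ∃ i, E1_Occ (tokw w) (len w) (2 * k) i
      · have hmin := Nat.find_spec hex
        have hmin' : ∀ i' < Nat.find hex, ¬ E1_Occ (tokw w) (len w) (2 * k) i' :=
          fun i' hi' => Nat.find_min hex hi'
        set i := Nat.find hex with hi
        have hiL : i < len w := by have := hmin.2.2; omega
        have hR : Rep (tokw w) (len w) i :=
          ⟨hmin.1, E1_even_tok hmin, fun i' hi' hs => hmin' i' hi' (E1_occ_of_same hmin hi' hs)⟩
        show (if ∃ i, E1_Occ (tokw w) (len w) (2 * k) i then rho u (tokw w) (len w) (2 * k)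
          else X (2 * k)) = X (2 * k)
        rw [hy (2 * k) i hmin, hux i hiL hR, E1_numv hmin]
      · show (if ∃ i, E1_Occ (tokw w) (len w) (2 * k) i then rho u (tokw w) (len w) (2 * k)
          else X (2 * k)) = X (2 * k)
        rw [if_neg hex]

end Pool.Agent.helper14.AU
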