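import Pool.Agent.helper14.AU.Spec

set_option autoImplicit false

namespace Pool.Agent.helper14.AU

open N68a2faeb N793a5b8e Pool.Agent.helper56.SGE Pool.Agent.helper56.SGE.QSys
  Pool.Agent.helper98.Tsei Pool.Agent.H54.PT

/-- the extra variables of a position -/
noncomputable def FC_ext (t t' x : ℝ) (c : ℕ) : ℝ :=
  if c = 0 then t else if c = 1 then t' else if c = 2 then 1 - t else if c = 3 then 1 - t' else
  if c = 4 then t * (1 - t') else if c = 5 then t' * (1 - t) else
  if c = 6 then (t * (1 - t')) * (t * (1 - t')) else if c = 7 then (t' * (1 - t)) * (t' * (1 - t)) else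
  if c = 8 then ((t * (1 - t')) * (t * (1 - t'))) * ((t * (1 - t')) * (t * (1 - t'))) else
  if c = 9 then ((t' * (1 - t)) * (t' * (1 - t))) * ((t' * (1 - t)) * (t' * (1 - t))) else
  if c = 10 then ((t * (1 - t')) * (t * (1 - t'))) * ((t' * (1 - t)) * (t' * (1 - t))) else
  if c = 11 then x * (((t * (1 - t')) * (t * (1 - t'))) * ((t' * (1 - t)) * (t' * (1 - t)))) +
    ((t' * (1 - t)) * (t' * (1 - t))) * ((t' * (1 - t)) * (t' * (1 - t))) else
  if c = 12 then (((t * (1 - t')) * (t * (1 - t'))) * ((t' * (1 - t)) * (t' * (1 - t)))) *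
    (x * (((t * (1 - t')) * (t * (1 - t'))) * ((t' * (1 - t)) * (t' * (1 - t)))) +
    ((t' * (1 - t)) * (t' * (1 - t))) * ((t' * (1 - t)) * (t' * (1 - t)))) else 0

lemma FC_unit_mul {a b : ℝ} (ha : 0 ≤ a ∧ a ≤ 1) (hb : 0 ≤ b ∧ b ≤ 1) : 0 ≤ a * b ∧ a * b ≤ 1 :=
  ⟨mul_nonneg ha.1 hb.1, by nlinarith [ha.1, ha.2, hb.1, hb.2]⟩

lemma FC_ext_bound {t t' : ℝ} (x : ℝ) (ht : 0 ≤ t ∧ t ≤ 1) (ht' : 0 ≤ t' ∧ t' ≤ 1) (c : ℕ) :
    |FC_ext t t' x c| ≤ |x| + 1 := by
  have hs : 0 ≤ 1 - t ∧ 1 - t ≤ 1 := ⟨by linarith [ht.2], by linarith [ht.1]⟩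
  have hs' : 0 ≤ 1 - t' ∧ 1 - t' ≤ 1 := ⟨by linarith [ht'.2], by linarith [ht'.1]⟩
  have ha := FC_unit_mul ht hs'
  have hb := FC_unit_mul ht' hs
  have ha2 := FC_unit_mul ha ha
  have hb2 := FC_unit_mul hb hb
  have ha4 := FC_unit_mul ha2 ha2
  have hb4 := FC_unit_mul hb2 hb2
  have hd := FC_unit_mul ha2 hb2
  have key : ∀ y : ℝ, 0 ≤ y ∧ y ≤ 1 → |y| ≤ |x| + 1 := by
    intro y hy
    rw [abs_of_nonneg hy.1]
    linarith [hy.2, abs_nonneg x]
  have hf : |x * (((t * (1 - t')) * (t * (1 - t'))) * ((t' * (1 - t)) * (t' * (1 - t)))) +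
    ((t' * (1 - t)) * (t' * (1 - t))) * ((t' * (1 - t)) * (t' * (1 - t)))| ≤ |x| + 1 := by
    refine (abs_add_le _ _).trans ?_
    rw [abs_mul, abs_of_nonneg hd.1, abs_of_nonneg hb4.1]
    have := mul_le_mul_of_nonneg_left hd.2 (abs_nonneg x)
    linarith [hb4.2]
  have hg : |(((t * (1 - t')) * (t * (1 - t'))) * ((t' * (1 - t)) * (t' * (1 - t)))) *
    (x * (((t * (1 - t')) * (t * (1 - t'))) * ((t' * (1 - t)) * (t' * (1 - t)))) +
    ((t' * (1 - t)) * (t' * (1 - t))) * ((t' * (1 - t)) * (t' * (1 - t))))| ≤ |x| + 1 := by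
    rw [abs_mul, abs_of_nonneg hd.1]
    calc _ ≤ 1 * (|x| + 1) := mul_le_mul hd.2 hf (abs_nonneg _) zero_le_one
      _ = |x| + 1 := one_mul _
  unfold FC_ext
  by_cases h0 : c = 0
  · rw [if_pos h0]; exact key _ ht
  rw [if_neg h0]
  by_cases h1 : c = 1
  · rw [if_pos h1]; exact key _ ht'
  rw [if_neg h1]
  by_cases h2 : c = 2
  · rw [if_pos h2]; exact key _ hs
  rw [if_neg h2]
  by_cases h3 : c = 3
  · rw [if_pos h3]; exact key _ hs'
  rw [if_neg h3]
  by_cases h4 : c = 4
  · rw [if_pos h4]; exact key _ ha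
  rw [if_neg h4]
  by_cases h5 : c = 5
  · rw [if_pos h5]; exact key _ hb
  rw [if_neg h5]
  by_cases h6 : c = 6
  · rw [if_pos h6]; exact key _ ha2
  rw [if_neg h6]
  by_cases h7 : c = 7
  · rw [if_pos h7]; exact key _ hb2
  rw [if_neg h7]
  by_cases h8 : c = 8
  · rw [if_pos h8]; exact key _ ha4
  rw [if_neg h8]
  by_cases h9 : c = 9
  · rw [if_pos h9]; exact key _ hb4
  rw [if_neg h9]
  by_cases h10 : c = 10
  · rw [if_pos h10]; exact key _ hd
  rw [if_neg h10]
  by_cases h11 : c = 11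
  · rw [if_pos h11]; exact hf
  rw [if_neg h11]
  by_cases h12 : c = 12
  · rw [if_pos h12]; exact hg
  rw [if_neg h12, abs_zero]; positivity

/-- the value of a description -/
noncomputable def FC_val (t t' x : ℝ) (D : ℕ) : ℝ :=
  if D = 0 then 0 else if D = 1 then 1 else if D = 2 then x else FC_ext t t' x (D - 3)

lemma FC_eqs (t t' x : ℝ)
    (h : (t * (1 - t')) * (t' * (1 - t)) = 0 ∨
      x * ((t * (1 - t')) ^ 2 * (t' * (1 - t)) ^ 2) + (t' * (1 - t)) ^ 4 = (t * (1 - t')) ^ 4)
    (e : ℕ) (he : e < 12) :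
    FC_val t t' x (descU e 0) * FC_val t t' x (descU e 1) + FC_val t t' x (descU e 2) -
      FC_val t t' x (descU e 3) = 0 := by
  interval_cases e
  all_goals try (simp [descU, tabU, FC_val, FC_ext] ; done)
  · simp only [descU, tabU, FC_val, FC_ext, List.getD_cons_succ, List.getD_cons_zero]
    norm_num
    rcases h with h | h
    · have h2 : ((t * (1 - t')) * (t * (1 - t'))) * ((t' * (1 - t)) * (t' * (1 - t))) = 0 := by
        have : ((t * (1 - t')) * (t * (1 - t'))) * ((t' * (1 - t)) * (t' * (1 - t))) =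
          ((t * (1 - t')) * (t' * (1 - t))) * ((t * (1 - t')) * (t' * (1 - t))) := by ring
        rw [this, h, mul_zero]
      rw [h2]; ring
    · have h3 : x * (((t * (1 - t')) * (t * (1 - t'))) * ((t' * (1 - t)) * (t' * (1 - t)))) +
          ((t' * (1 - t)) * (t' * (1 - t))) * ((t' * (1 - t)) * (t' * (1 - t))) =
          ((t * (1 - t')) * (t * (1 - t'))) * ((t * (1 - t')) * (t * (1 - t'))) := by
        linear_combination h
      rw [h3]; ring

lemma FC_frac {A B κ : ℝ} (hA : 0 ≤ A) (hB : 0 ≤ B) (hκ : 0 < κ) :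
    0 ≤ A / (A + κ * B) ∧ A / (A + κ * B) ≤ 1 := by
  have h1 : 0 ≤ κ * B := by positivity
  constructor
  · positivity
  · exact div_le_one_of_le₀ (by linarith) (by linarith)

lemma FC_frac_mul {A B κ : ℝ} (hA : 0 ≤ A) (hB : 0 ≤ B) (hκ : 0 < κ) :
    A / (A + κ * B) * (A + κ * B) = A := by
  rcases eq_or_lt_of_le (show 0 ≤ A + κ * B by positivity) with h | h
  · have h1 : 0 ≤ κ * B := by positivity
    have : A = 0 := by linarith
    rw [this]; simp
  · exact div_mul_cancel₀ _ h.ne'

open Classical in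
/-- the value of the universal variable of a position -/
noncomputable def FC_x (A B A' B' : ℝ) : ℝ :=
  if 0 < A ∧ 0 < B ∧ 0 < A' ∧ 0 < B' then
    (A * B' / (A' * B)) ^ 2 - 1 / (A * B' / (A' * B)) ^ 2 else 0

lemma FC_rep {A B A' B' κ : ℝ} (hA : 0 ≤ A) (hB : 0 ≤ B) (hA' : 0 ≤ A') (hB' : 0 ≤ B')
    (hκ : 0 < κ) (t t' : ℝ) (ht : t = A / (A + κ * B)) (ht' : t' = A' / (A' + κ * B')) :
    (t * (1 - t')) * (t' * (1 - t)) = 0 ∨
      FC_x A B A' B' * ((t * (1 - t')) ^ 2 * (t' * (1 - t)) ^ 2) + (t' * (1 - t)) ^ 4 =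
        (t * (1 - t')) ^ 4 := by
  rcases eq_or_lt_of_le hA with h1 | h1
  · left
    rw [ht, ← h1]; simp
  rcases eq_or_lt_of_le hA' with h2 | h2
  · left
    rw [ht', ← h2]; simp
  rcases eq_or_lt_of_le hB with h3 | h3
  · left
    have : t = 1 := by rw [ht, ← h3, mul_zero, add_zero, div_self h1.ne']
    rw [this]; ring
  rcases eq_or_lt_of_le hB' with h4 | h4
  · left
    have : t' = 1 := by rw [ht', ← h4, mul_zero, add_zero, div_self h2.ne']
    rw [this]; ring
  right
  have e1 : 1 - t = κ * B / (A + κ * B) := by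
    rw [ht]; field_simp; ring
  have e2 : 1 - t' = κ * B' / (A' + κ * B') := by
    rw [ht']; field_simp; ring
  rw [FC_x, if_pos ⟨h1, h3, h2, h4⟩, e1, e2, ht, ht']
  field_simp
  ring

theorem FC (hE1 : E1_stmt) : FC_stmt := by
  classical
  intro w hU α β hαβ
  obtain ⟨hG, hx⟩ := (hE1 w).mp hU
  set L := len w with hL
  set tok := tokw w with htok
  have hLpos : 0 < L := hG.2.pos
  obtain ⟨u, hu, hux⟩ := hx (fun i => FC_x (α (16 * L + 16 * i + 2)) (β (16 * L + 16 * i + 2))
    (α (16 * L + 16 * i + 3)) (β (16 * L + 16 * i + 3)))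
  have hsys : sysU w = ⟨32 * len w, mU (len w) + 12 * len w, fun k c =>
      if k < mU (len w) then lref (tokw w) (len w) k c
      else prefU (len w) ((k - mU (len w)) / 12) (descU ((k - mU (len w)) % 12) c)⟩ := by
    unfold sysU
    rw [if_pos hG]
  refine ⟨1 + ∑ v ∈ Finset.range (16 * L), |u v|, fun κ hκ1 hκ2 => ?_⟩
  have hκ : 0 < κ := by linarith
  let T : ℕ → ℝ := fun i => if Rep tok L i then
    α (16 * L + 16 * i + 2) / (α (16 * L + 16 * i + 2) + κ * β (16 * L + 16 * i + 2)) else 0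
  let T' : ℕ → ℝ := fun i => if Rep tok L i then
    α (16 * L + 16 * i + 3) / (α (16 * L + 16 * i + 3) + κ * β (16 * L + 16 * i + 3)) else 0
  have hT : ∀ i, 0 ≤ T i ∧ T i ≤ 1 := by
    intro i
    show 0 ≤ (if Rep tok L i then _ else 0 : ℝ) ∧ (if Rep tok L i then _ else 0 : ℝ) ≤ 1
    split_ifs with h
    · exact FC_frac (hαβ _).1 (hαβ _).2 hκ
    · exact ⟨le_rfl, zero_le_one⟩
  have hT' : ∀ i, 0 ≤ T' i ∧ T' i ≤ 1 := by
    intro i
    show 0 ≤ (if Rep tok L i then _ else 0 : ℝ) ∧ (if Rep tok L i then _ else 0 : ℝ) ≤ 1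
    split_ifs with h
    · exact FC_frac (hαβ _).1 (hαβ _).2 hκ
    · exact ⟨le_rfl, zero_le_one⟩
  let z : ℕ → ℝ := fun v => if v < 16 * L then u v else
    FC_ext (T ((v - 16 * L) / 16)) (T' ((v - 16 * L) / 16)) (u (16 * ((v - 16 * L) / 16)))
      ((v - 16 * L) % 16)
  have hz1 : ∀ v, v < 16 * L → z v = u v := fun v hv => if_pos hv
  have hz2 : ∀ i c, c < 16 → z (16 * L + 16 * i + c) = FC_ext (T i) (T' i) (u (16 * i)) c := by
    intro i c hc
    show (if 16 * L + 16 * i + c < 16 * L then _ else _) = _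
    rw [if_neg (by omega)]
    have e1 : (16 * L + 16 * i + c - 16 * L) / 16 = i := by omega
    have e2 : (16 * L + 16 * i + c - 16 * L) % 16 = c := by omega
    rw [e1, e2]
  have hrz : ∀ r, r < 16 * L + 2 → rval z r = rval u r := by
    intro r hr
    match r, hr with
    | 0, _ => rfl
    | 1, _ => rfl
    | v + 2, hr => exact hz1 v (by omega)
  have hrp : ∀ i D, i < L → D < 19 → rval z (prefU L i D) = FC_val (T i) (T' i) (u (16 * i)) D := by
    intro i D hi hD
    unfold prefU FC_val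
    by_cases h0 : D = 0
    · rw [if_pos (by omega), h0, if_pos rfl]; rfl
    by_cases h1 : D = 1
    · rw [if_pos (by omega), h1, if_neg (by omega), if_pos rfl]; rfl
    by_cases h2 : D = 2
    · rw [if_neg (by omega), if_pos h2, if_neg h0, if_neg h1, if_pos h2]
      exact hz1 (16 * i) (by omega)
    · rw [if_neg (by omega), if_neg h2, if_neg h0, if_neg h1, if_neg h2]
      exact hz2 i (D - 3) (by omega)
  refine ⟨z, ?_, ?_, ?_⟩
  · intro v hv
    rw [hsys] at hv
    have hv' : v < 32 * L := hv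
    have hsum : ∀ v' < 16 * L, |u v'| ≤ ∑ v ∈ Finset.range (16 * L), |u v| := by
      intro v' hv'
      exact Finset.single_le_sum (f := fun v => |u v|) (fun _ _ => abs_nonneg _)
        (Finset.mem_range.mpr hv')
    by_cases h : v < 16 * L
    · rw [hz1 v h]
      linarith [hsum v h]
    · have e : z v = FC_ext (T ((v - 16 * L) / 16)) (T' ((v - 16 * L) / 16))
          (u (16 * ((v - 16 * L) / 16))) ((v - 16 * L) % 16) := if_neg h
      rw [e]
      refine (FC_ext_bound _ (hT _) (hT' _) _).trans ?_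
      have := hsum (16 * ((v - 16 * L) / 16)) (by omega)
      linarith
  · intro k hk
    rw [hsys] at hk ⊢
    have hk' : k < mU L + 12 * L := hk
    unfold E
    show rval z (if k < mU L then lref tok L k 0 else
        prefU L ((k - mU L) / 12) (descU ((k - mU L) % 12) 0)) *
      rval z (if k < mU L then lref tok L k 1 else
        prefU L ((k - mU L) / 12) (descU ((k - mU L) % 12) 1)) +
      rval z (if k < mU L then lref tok L k 2 else
        prefU L ((k - mU L) / 12) (descU ((k - mU L) % 12) 2)) -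
      rval z (if k < mU L then lref tok L k 3 else
        prefU L ((k - mU L) / 12) (descU ((k - mU L) % 12) 3)) = 0
    by_cases h : k < mU L
    · simp only [if_pos h]
      have hlr : ∀ c < 4, rval z (lref tok L k c) = rval u (lref tok L k c) :=
        fun c hc => hrz _ (lref_lt hG.2 hc)
      rw [hlr 0 (by norm_num), hlr 1 (by norm_num), hlr 2 (by norm_num), hlr 3 (by norm_num)]
      have hmU : mU L = 8 * L + L * L + 1 := rfl
      rcases Nat.lt_or_ge k (8 * L) with h1 | h1
      · have h2 := hu.loc (k / 8) (by omega) (k % 8) (by omega)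
        simp only [lref, if_pos h1]
        exact h2
      · rcases Nat.lt_or_ge k (8 * L + L * L) with h2 | h2
        · by_cases hs : Same tok L ((k - 8 * L) / L) ((k - 8 * L) % L)
          · have h3 := hu.pair _ (by
              rw [Nat.div_lt_iff_lt_mul hLpos]
              omega) _ (Nat.mod_lt _ hLpos) hs
            simp only [lref, if_neg (by omega : ¬ k < 8 * L), if_pos h2, if_pos hs]
            norm_num [rval]
            linarith
          · simp only [lref, if_neg (by omega : ¬ k < 8 * L), if_pos h2, if_neg hs]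
            norm_num [rval]
        · simp only [lref, if_neg (by omega : ¬ k < 8 * L),
            if_neg (by omega : ¬ k < 8 * L + L * L)]
          norm_num [rval]
          exact hu.root
    · simp only [if_neg h]
      set i := (k - mU L) / 12 with hi
      have hiL : i < L := by omega
      set e := (k - mU L) % 12 with he
      have he12 : e < 12 := Nat.mod_lt _ (by norm_num)
      have hdesc : ∀ c < 4, descU e c < 19 := by
        have hall : ∀ (e : Fin 12) (c : Fin 4), descU e c < 19 := by decide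
        intro c hc
        exact hall ⟨e, he12⟩ ⟨c, hc⟩
      rw [hrp i _ hiL (hdesc 0 (by norm_num)), hrp i _ hiL (hdesc 1 (by norm_num)),
        hrp i _ hiL (hdesc 2 (by norm_num)), hrp i _ hiL (hdesc 3 (by norm_num))]
      refine FC_eqs _ _ _ ?_ e he12
      by_cases hR : Rep tok L i
      · rw [hux i hiL hR]
        exact FC_rep (hαβ _).1 (hαβ _).2 (hαβ _).1 (hαβ _).2 hκ (T i) (T' i) (if_pos hR) (if_pos hR)
      · left
        have : T i = 0 := if_neg hR
        rw [this]; ring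
  · rintro r ⟨-, i, hi, hR, hr | hr⟩
    · have e1 : rval z r = T i := by
        rw [hr]
        show z (16 * L + 16 * i + 0) = T i
        rw [hz2 i 0 (by norm_num)]
        rfl
      have e2 : T i = α r / (α r + κ * β r) := by
        rw [hr]; exact if_pos hR
      rw [e1, e2]
      exact FC_frac_mul (hαβ _).1 (hαβ _).2 hκ
    · have e1 : rval z r = T' i := by
        rw [hr]
        show z (16 * L + 16 * i + 1) = T' i
        rw [hz2 i 1 (by norm_num)]
        rfl
      have e2 : T' i = α r / (α r + κ * β r) := by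
        rw [hr]; exact if_pos hR
      rw [e1, e2]
      exact FC_frac_mul (hαβ _).1 (hαβ _).2 hκ

end Pool.Agent.helper14.AU
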